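import Pool.Agent.MDG.Defs

/-! # Squad MDG, row TUT, part A: the count. -/

set_option autoImplicit false

open Finset Pool.Agent.HEC

namespace Pool.Agent.MDG.H42

open Classical in
/-- truth value -/
noncomputable def bt (p : Prop) : ℕ := if p then 1 else 0

theorem bt_pos {p : Prop} (h : p) : bt p = 1 := if_pos h
theorem bt_neg {p : Prop} (h : ¬ p) : bt p = 0 := if_neg h
theorem bt_le (p : Prop) : bt p ≤ 1 := by
  by_cases h : p
  · rw [bt_pos h]
  · rw [bt_neg h]; omega

theorem bt_mono {p q : Prop} (h : p → q) : bt p ≤ bt q := by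
  by_cases hp : p
  · rw [bt_pos hp, bt_pos (h hp)]
  · rw [bt_neg hp]; omega

theorem cnt_sum {α : Type} [Fintype α] (p : α → Prop) : cnt p = ∑ a, bt (p a) := by
  classical
  unfold cnt bt
  rw [Finset.card_filter]

section

variable {N E CC : Type} [Fintype N] [Fintype E] (s t : E → N) (g : N → ℕ) (κ : N → Option CC)

open Classical in
/-- nodes with the value `c` -/
noncomputable def Bc (c : CC) : Finset N := univ.filter fun x => κ x = some c

theorem mem_Bc (c : CC) (x : N) : x ∈ Bc κ c ↔ κ x = some c := by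
  classical
  simp [Bc]

theorem deg_none (hg : ∀ x, 2 * g x ≤ mdg s t (fun _ => True) x) :
    2 * ∑ x, bt (κ x = none) * g x ≤ ∑ e, (bt (κ (s e) = none) + bt (κ (t e) = none)) := by
  classical
  have h1 : ∀ x, bt (κ x = none) * (2 * g x) ≤
      bt (κ x = none) * ∑ e, bt (s e = x ∨ t e = x) := by
    intro x
    apply Nat.mul_le_mul_left
    have := hg x
    unfold mdg at this
    rw [cnt_sum] at this
    refine this.trans (Finset.sum_le_sum fun e _ => bt_mono fun h => h.2)
  calc 2 * ∑ x, bt (κ x = none) * g x = ∑ x, bt (κ x = none) * (2 * g x) := by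
        rw [Finset.mul_sum]
        refine Finset.sum_congr rfl fun x _ => ?_
        ring
    _ ≤ ∑ x, bt (κ x = none) * ∑ e, bt (s e = x ∨ t e = x) := Finset.sum_le_sum fun x _ => h1 x
    _ = ∑ e, ∑ x, bt (κ x = none) * bt (s e = x ∨ t e = x) := by
        rw [Finset.sum_comm]
        refine Finset.sum_congr rfl fun x _ => ?_
        rw [Finset.mul_sum]
    _ ≤ _ := by
        refine Finset.sum_le_sum fun e _ => ?_
        have h2 : ∀ x, bt (κ x = none) * bt (s e = x ∨ t e = x) ≤
            (if x = s e then bt (κ (s e) = none) else 0) +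
              (if x = t e then bt (κ (t e) = none) else 0) := by
          intro x
          by_cases hx : s e = x ∨ t e = x
          · rw [bt_pos hx, mul_one]
            rcases hx with hx | hx
            · rw [if_pos hx.symm, ← hx]
              exact Nat.le_add_right _ _
            · rw [if_pos hx.symm, ← hx]
              exact Nat.le_add_left _ _
          · rw [bt_neg hx, mul_zero]
            exact Nat.zero_le _
        refine (Finset.sum_le_sum fun x _ => h2 x).trans ?_
        rw [Finset.sum_add_distrib, Finset.sum_ite_eq', Finset.sum_ite_eq',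
          if_pos (mem_univ _), if_pos (mem_univ _)]

theorem count (O2 : Finset CC) (US UT : E → Prop) (D : (Σ x, Fin (g x)) → Prop)
    (hcut : ∀ W : Finset N, mct s t W ≠ 1)
    (hg : ∀ x, 2 * g x ≤ mdg s t (fun _ => True) x)
    (hS : ∀ e, κ (s e) = none → US e) (hT : ∀ e, κ (t e) = none → UT e)
    (hE : ∀ e c c', κ (s e) = some c → κ (t e) = some c' → c ≠ c' → US e ∨ UT e)
    (hO : ∀ c ∈ O2, mct s t (Bc κ c) = 0 → (∃ e, US e ∧ κ (s e) = some c) ∨
      (∃ e, UT e ∧ κ (t e) = some c) ∨ ∃ d, D d ∧ κ d.1 = some c)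
    (n1 : ℕ) (hn1 : n1 ≤ ∑ x, bt (κ x = none) * g x) :
    n1 + O2.card ≤ ∑ e, (bt (US e) + bt (UT e)) + ∑ d, bt (D d) := by
  classical
  have hd := deg_none s t g κ hg
  -- the three kinds of charges
  let cr : CC → E → Prop := fun c e =>
    (s e ∈ Bc κ c ∧ t e ∉ Bc κ c) ∨ (s e ∉ Bc κ c ∧ t e ∈ Bc κ c)
  let z : CC → Prop := fun c => mct s t (Bc κ c) = 0
  have key : ∀ c ∈ O2, 2 ≤ ∑ e, (bt (cr c e) + 2 * (bt (z c ∧ US e ∧ κ (s e) = some c) +
      bt (z c ∧ UT e ∧ κ (t e) = some c))) + ∑ d, 2 * bt (z c ∧ D d ∧ κ d.1 = some c) := by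
    intro c hc
    by_cases hz : mct s t (Bc κ c) = 0
    · rcases hO c hc hz with ⟨e, h1, h2⟩ | ⟨e, h1, h2⟩ | ⟨d, h1, h2⟩
      · have h3 : 2 ≤ bt (cr c e) + 2 * (bt (z c ∧ US e ∧ κ (s e) = some c) +
            bt (z c ∧ UT e ∧ κ (t e) = some c)) := by
          rw [bt_pos (p := z c ∧ US e ∧ κ (s e) = some c) ⟨hz, h1, h2⟩]
          omega
        exact (h3.trans (Finset.single_le_sum (f := fun e => bt (cr c e) +
          2 * (bt (z c ∧ US e ∧ κ (s e) = some c) + bt (z c ∧ UT e ∧ κ (t e) = some c)))
          (fun _ _ => Nat.zero_le _) (mem_univ e))).trans (Nat.le_add_right _ _)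
      · have h3 : 2 ≤ bt (cr c e) + 2 * (bt (z c ∧ US e ∧ κ (s e) = some c) +
            bt (z c ∧ UT e ∧ κ (t e) = some c)) := by
          rw [bt_pos (p := z c ∧ UT e ∧ κ (t e) = some c) ⟨hz, h1, h2⟩]
          omega
        exact (h3.trans (Finset.single_le_sum (f := fun e => bt (cr c e) +
          2 * (bt (z c ∧ US e ∧ κ (s e) = some c) + bt (z c ∧ UT e ∧ κ (t e) = some c)))
          (fun _ _ => Nat.zero_le _) (mem_univ e))).trans (Nat.le_add_right _ _)
      · have h3 : 2 ≤ 2 * bt (z c ∧ D d ∧ κ d.1 = some c) := by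
          rw [bt_pos (p := z c ∧ D d ∧ κ d.1 = some c) ⟨hz, h1, h2⟩]
        exact (h3.trans (Finset.single_le_sum (f := fun d : (Σ x, Fin (g x)) =>
          2 * bt (z c ∧ D d ∧ κ d.1 = some c))
          (fun _ _ => Nat.zero_le _) (mem_univ d))).trans (Nat.le_add_left _ _)
    · have h1 := hcut (Bc κ c)
      have h2 : 2 ≤ mct s t (Bc κ c) := by omega
      unfold mct at h2
      rw [cnt_sum] at h2
      refine (h2.trans (Finset.sum_le_sum fun e _ => ?_)).trans (Nat.le_add_right _ _)
      exact Nat.le_add_right _ _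
  have hsum := Finset.sum_le_sum key
  rw [Finset.sum_const, smul_eq_mul, Finset.sum_add_distrib, Finset.sum_comm,
    Finset.sum_comm (s := O2) (t := (univ : Finset (Σ x, Fin (g x))))] at hsum
  -- edges
  have hedge : ∀ e, ∑ c ∈ O2, (bt (cr c e) + 2 * (bt (z c ∧ US e ∧ κ (s e) = some c) +
      bt (z c ∧ UT e ∧ κ (t e) = some c))) + (bt (κ (s e) = none) + bt (κ (t e) = none)) ≤
      2 * (bt (US e) + bt (UT e)) := by
    intro e
    have hcr : ∀ c, cr c e → ¬ z c := by
      intro c hc hz
      have h1 : mct s t (Bc κ c) = 0 := hz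
      unfold mct at h1
      rw [cnt_sum, Finset.sum_eq_zero_iff] at h1
      have h2 := h1 e (mem_univ e)
      rw [bt_pos (show (s e ∈ Bc κ c ∧ t e ∉ Bc κ c) ∨ (s e ∉ Bc κ c ∧ t e ∈ Bc κ c) from hc)] at h2
      omega
    -- the sum has at most the terms of the two ends
    have hzero : ∀ c, κ (s e) ≠ some c → κ (t e) ≠ some c →
        bt (cr c e) + 2 * (bt (z c ∧ US e ∧ κ (s e) = some c) +
          bt (z c ∧ UT e ∧ κ (t e) = some c)) = 0 := by
      intro c h1 h2
      have h3 : ¬ cr c e := by
        rintro (⟨h, _⟩ | ⟨_, h⟩)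
        · exact h1 ((mem_Bc κ c _).mp h)
        · exact h2 ((mem_Bc κ c _).mp h)
      rw [bt_neg h3, bt_neg (fun h => h1 h.2.2), bt_neg (fun h => h2 h.2.2)]
    have hcut1 : ∀ c, (κ (s e) = some c) → (κ (t e) ≠ some c) →
        bt (cr c e) + 2 * (bt (z c ∧ US e ∧ κ (s e) = some c) +
          bt (z c ∧ UT e ∧ κ (t e) = some c)) ≤ 1 := by
      intro c h1 h2
      have h3 : cr c e := Or.inl ⟨(mem_Bc κ c _).mpr h1, fun h => h2 ((mem_Bc κ c _).mp h)⟩
      have h4 := hcr c h3
      rw [bt_pos h3, bt_neg (fun h => h4 h.1), bt_neg (fun h => h4 h.1)]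
    have hcut2 : ∀ c, (κ (s e) ≠ some c) → (κ (t e) = some c) →
        bt (cr c e) + 2 * (bt (z c ∧ US e ∧ κ (s e) = some c) +
          bt (z c ∧ UT e ∧ κ (t e) = some c)) ≤ 1 := by
      intro c h1 h2
      have h3 : cr c e := Or.inr ⟨fun h => h1 ((mem_Bc κ c _).mp h), (mem_Bc κ c _).mpr h2⟩
      have h4 := hcr c h3
      rw [bt_pos h3, bt_neg (fun h => h4 h.1), bt_neg (fun h => h4 h.1)]
    have hin : ∀ c, (κ (s e) = some c) → (κ (t e) = some c) →
        bt (cr c e) + 2 * (bt (z c ∧ US e ∧ κ (s e) = some c) +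
          bt (z c ∧ UT e ∧ κ (t e) = some c)) ≤ 2 * (bt (US e) + bt (UT e)) := by
      intro c h1 h2
      have h3 : ¬ cr c e := by
        rintro (⟨_, h⟩ | ⟨h, _⟩)
        · exact h ((mem_Bc κ c _).mpr h2)
        · exact h ((mem_Bc κ c _).mpr h1)
      have h4 : bt (z c ∧ US e ∧ κ (s e) = some c) ≤ bt (US e) := bt_mono fun h => h.2.1
      have h5 : bt (z c ∧ UT e ∧ κ (t e) = some c) ≤ bt (UT e) := bt_mono fun h => h.2.1
      rw [bt_neg h3]
      omega
    have hone : ∀ c, (∀ c', c' ≠ c → κ (s e) ≠ some c' ∧ κ (t e) ≠ some c') →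
        ∑ c ∈ O2, (bt (cr c e) + 2 * (bt (z c ∧ US e ∧ κ (s e) = some c) +
          bt (z c ∧ UT e ∧ κ (t e) = some c))) ≤
        bt (cr c e) + 2 * (bt (z c ∧ US e ∧ κ (s e) = some c) +
          bt (z c ∧ UT e ∧ κ (t e) = some c)) := by
      intro c hc
      calc ∑ c ∈ O2, (bt (cr c e) + 2 * (bt (z c ∧ US e ∧ κ (s e) = some c) +
            bt (z c ∧ UT e ∧ κ (t e) = some c)))
          ≤ ∑ c' ∈ O2 ∪ {c}, (bt (cr c' e) + 2 * (bt (z c' ∧ US e ∧ κ (s e) = some c') +
            bt (z c' ∧ UT e ∧ κ (t e) = some c'))) :=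
            Finset.sum_le_sum_of_subset Finset.subset_union_left
        _ = _ := Finset.sum_eq_single_of_mem c (by simp) fun c' _ h =>
            hzero c' (hc c' h).1 (hc c' h).2
    rcases hks : κ (s e) with _ | c1
    · rcases hkt : κ (t e) with _ | c2
      · rw [bt_pos (hS e hks), bt_pos (hT e hkt)]
        have : ∑ c ∈ O2, (bt (cr c e) + 2 * (bt (z c ∧ US e ∧ (none : Option CC) = some c) +
            bt (z c ∧ UT e ∧ (none : Option CC) = some c))) = 0 := by
          apply Finset.sum_eq_zero
          intro c _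
          have := hzero c (by rw [hks]; simp) (by rw [hkt]; simp)
          rw [hks, hkt] at this
          exact this
        rw [this]
        have := bt_le ((none : Option CC) = none)
        omega
      · have h1 := (hone c2 (fun c' hc' => ⟨by rw [hks]; simp, by
          rw [hkt]; intro h; exact hc' (Option.some.inj h).symm⟩)).trans
          (hcut2 c2 (by rw [hks]; simp) hkt)
        rw [hks, hkt] at h1
        rw [bt_pos (hS e hks)]
        have h2 : bt ((some c2 : Option CC) = none) = 0 := bt_neg (by simp)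
        have h3 := bt_le ((none : Option CC) = none)
        rw [h2]
        omega
    · rcases hkt : κ (t e) with _ | c2
      · have h1 := (hone c1 (fun c' hc' => ⟨by
          rw [hks]; intro h; exact hc' (Option.some.inj h).symm, by rw [hkt]; simp⟩)).trans
          (hcut1 c1 hks (by rw [hkt]; simp))
        rw [hks, hkt] at h1
        rw [bt_pos (hT e hkt)]
        have h2 : bt ((some c1 : Option CC) = none) = 0 := bt_neg (by simp)
        have h3 := bt_le ((none : Option CC) = none)
        rw [h2]
        omega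
      · have h2 : bt ((some c1 : Option CC) = none) = 0 := bt_neg (by simp)
        have h2' : bt ((some c2 : Option CC) = none) = 0 := bt_neg (by simp)
        rw [h2, h2']
        by_cases hcc : c1 = c2
        · have h1 := (hone c1 (fun c' hc' => ⟨by
            rw [hks]; intro h; exact hc' (Option.some.inj h).symm, by
            rw [hkt, ← hcc]; intro h; exact hc' (Option.some.inj h).symm⟩)).trans
            (hin c1 hks (by rw [hkt, hcc]))
          rw [hks, hkt] at h1
          omega
        · have h3 : 1 ≤ bt (US e) + bt (UT e) := by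
            rcases hE e c1 c2 hks hkt hcc with h | h
            · rw [bt_pos h]; omega
            · rw [bt_pos h]; omega
          have h4 : ∑ c ∈ O2, (bt (cr c e) + 2 * (bt (z c ∧ US e ∧ κ (s e) = some c) +
              bt (z c ∧ UT e ∧ κ (t e) = some c))) ≤ 2 := by
            calc ∑ c ∈ O2, (bt (cr c e) + 2 * (bt (z c ∧ US e ∧ κ (s e) = some c) +
                  bt (z c ∧ UT e ∧ κ (t e) = some c)))
                ≤ ∑ c ∈ O2 ∪ {c1, c2}, (bt (cr c e) + 2 * (bt (z c ∧ US e ∧ κ (s e) = some c) +
                  bt (z c ∧ UT e ∧ κ (t e) = some c))) :=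
                  Finset.sum_le_sum_of_subset Finset.subset_union_left
              _ = ∑ c ∈ ({c1, c2} : Finset CC), (bt (cr c e) +
                  2 * (bt (z c ∧ US e ∧ κ (s e) = some c) +
                  bt (z c ∧ UT e ∧ κ (t e) = some c))) := by
                  symm
                  apply Finset.sum_subset Finset.subset_union_right
                  intro c _ hc
                  rw [mem_insert, mem_singleton, not_or] at hc
                  exact hzero c (by rw [hks]; intro h; exact hc.1 (Option.some.inj h).symm)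
                    (by rw [hkt]; intro h; exact hc.2 (Option.some.inj h).symm)
              _ ≤ 2 := by
                  rw [Finset.sum_pair hcc]
                  have a1 := hcut1 c1 hks (by
                    rw [hkt]; intro h; exact hcc (Option.some.inj h).symm)
                  have a2 := hcut2 c2 (by
                    rw [hks]; intro h; exact hcc (Option.some.inj h)) hkt
                  omega
          rw [hks, hkt] at h4
          omega
  -- dummies
  have hdum : ∀ d : (Σ x, Fin (g x)), ∑ c ∈ O2, 2 * bt (z c ∧ D d ∧ κ d.1 = some c) ≤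
      2 * bt (D d) := by
    intro d
    rcases hk : κ d.1 with _ | c0
    · have : ∑ c ∈ O2, 2 * bt (z c ∧ D d ∧ (none : Option CC) = some c) = 0 := by
        apply Finset.sum_eq_zero
        intro c _
        rw [bt_neg (fun h => by simpa using h.2.2), mul_zero]
      rw [this]
      exact Nat.zero_le _
    · calc ∑ c ∈ O2, 2 * bt (z c ∧ D d ∧ (some c0 : Option CC) = some c)
          ≤ ∑ c ∈ O2 ∪ {c0}, 2 * bt (z c ∧ D d ∧ (some c0 : Option CC) = some c) :=
            Finset.sum_le_sum_of_subset Finset.subset_union_left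
        _ = 2 * bt (z c0 ∧ D d ∧ (some c0 : Option CC) = some c0) := by
            apply Finset.sum_eq_single_of_mem c0 (by simp)
            intro c' _ h
            rw [bt_neg (fun h' => h (Option.some.inj h'.2.2).symm), mul_zero]
        _ ≤ 2 * bt (D d) := Nat.mul_le_mul_left _ (bt_mono fun h => h.2.1)
  have he := Finset.sum_le_sum fun e (_ : e ∈ (univ : Finset E)) => hedge e
  have hd2 := Finset.sum_le_sum fun d (_ : d ∈ (univ : Finset (Σ x, Fin (g x)))) => hdum d
  rw [Finset.sum_add_distrib, ← Finset.mul_sum] at he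
  rw [← Finset.mul_sum] at hd2
  omega

end

end Pool.Agent.MDG.H42
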