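import Pool.Agent.MDG.Stmts
import Pool.Agent.Helper42_MDG.TUTA

/-! # Squad MDG, row TUT: the gadget graph has a perfect matching. -/

set_option autoImplicit false

open Finset Pool.Agent.HEC

namespace Pool.Agent.MDG.H42

theorem first_step {V : Type} {G : SimpleGraph V} {a b : V} (h : G.Reachable a b) (hne : a ≠ b) :
    ∃ c, G.Adj a c := by
  obtain ⟨w⟩ := h
  cases w with
  | nil => exact absurd rfl hne
  | cons h _ => exact ⟨_, h⟩

section

variable {N E : Type} [Fintype N] [Fintype E] (s t : E → N) (g : N → ℕ)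

/-- first port of an edge -/
def pS (e : E) : Prt s t g := Sum.inl ⟨(s e, e), Or.inl rfl⟩
/-- second port of an edge -/
def pT (e : E) : Prt s t g := Sum.inl ⟨(t e, e), Or.inr rfl⟩
/-- dummy -/
def pD (d : Σ x : N, Fin (g x)) : Prt s t g := Sum.inr d

/-- the node -/
def nd : Prt s t g → N
  | Sum.inl a => a.1.1
  | Sum.inr d => d.1

/-- is a port -/
def isP : Prt s t g → Prop
  | Sum.inl _ => True
  | Sum.inr _ => False

variable {s t g}

omit [Fintype N] [Fintype E] in
theorem prt_cases (q : Prt s t g) : (∃ e, q = pS s t g e) ∨ (∃ e, q = pT s t g e) ∨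
    ∃ d, q = pD s t g d := by
  rcases q with ⟨⟨x, e⟩, h⟩ | d
  · rcases h with h | h
    · left
      refine ⟨e, ?_⟩
      have h' : s e = x := h
      subst h'
      rfl
    · right; left
      refine ⟨e, ?_⟩
      have h' : t e = x := h
      subst h'
      rfl
  · exact Or.inr (Or.inr ⟨d, rfl⟩)

/-- the elements of the gadget graph -/
noncomputable def eqv (hst : ∀ e, s e ≠ t e) : (E ⊕ E) ⊕ (Σ x : N, Fin (g x)) ≃ Prt s t g :=
  Equiv.ofBijective (Sum.elim (Sum.elim (pS s t g) (pT s t g)) (pD s t g)) (by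
    constructor
    · rintro ((e | e) | d) ((e' | e') | d') h
      · have h1 : (⟨(s e, e), Or.inl rfl⟩ : {q : N × E // s q.2 = q.1 ∨ t q.2 = q.1}) =
          ⟨(s e', e'), Or.inl rfl⟩ := Sum.inl.inj h
        have h2 : (s e, e) = (s e', e') := congrArg Subtype.val h1
        rw [(Prod.mk.inj h2).2]
      · have h1 : (⟨(s e, e), Or.inl rfl⟩ : {q : N × E // s q.2 = q.1 ∨ t q.2 = q.1}) =
          ⟨(t e', e'), Or.inr rfl⟩ := Sum.inl.inj h
        have h2 : (s e, e) = (t e', e') := congrArg Subtype.val h1
        have h3 := Prod.mk.inj h2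
        exact absurd (h3.1.trans (by rw [h3.2])) (hst e)
      · exact absurd h Sum.inl_ne_inr
      · have h1 : (⟨(t e, e), Or.inr rfl⟩ : {q : N × E // s q.2 = q.1 ∨ t q.2 = q.1}) =
          ⟨(s e', e'), Or.inl rfl⟩ := Sum.inl.inj h
        have h2 : (t e, e) = (s e', e') := congrArg Subtype.val h1
        have h3 := Prod.mk.inj h2
        exact absurd (h3.1.trans (by rw [h3.2])).symm (hst e)
      · have h1 : (⟨(t e, e), Or.inr rfl⟩ : {q : N × E // s q.2 = q.1 ∨ t q.2 = q.1}) =
          ⟨(t e', e'), Or.inr rfl⟩ := Sum.inl.inj h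
        have h2 : (t e, e) = (t e', e') := congrArg Subtype.val h1
        rw [(Prod.mk.inj h2).2]
      · exact absurd h Sum.inl_ne_inr
      · exact absurd h Sum.inr_ne_inl
      · exact absurd h Sum.inr_ne_inl
      · rw [Sum.inr.inj h]
    · intro q
      rcases prt_cases q with ⟨e, h⟩ | ⟨e, h⟩ | ⟨d, h⟩
      · exact ⟨Sum.inl (Sum.inl e), h.symm⟩
      · exact ⟨Sum.inl (Sum.inr e), h.symm⟩
      · exact ⟨Sum.inr d, h.symm⟩)

theorem sum_prt (hst : ∀ e, s e ≠ t e) (f : Prt s t g → ℕ) :
    ∑ q, f q = ∑ e, (f (pS s t g e) + f (pT s t g e)) + ∑ d, f (pD s t g d) := by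
  rw [← Equiv.sum_comp (eqv hst) f, Fintype.sum_sum_type, Fintype.sum_sum_type,
    Finset.sum_add_distrib]
  rfl

theorem even_of (hst : ∀ e, s e ≠ t e) (hge : ∀ x, Even (g x)) (B : Finset N)
    (hB : mct s t B = 0) : Even (∑ q : Prt s t g, bt (nd s t g q ∈ B)) := by
  classical
  rw [sum_prt hst]
  apply Even.add
  · apply Finset.even_sum
    intro e _
    change Even (bt (s e ∈ B) + bt (t e ∈ B))
    have h1 := hB
    unfold mct at h1
    rw [cnt_sum, Finset.sum_eq_zero_iff] at h1
    have h2 := h1 e (mem_univ e)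
    by_cases ha : s e ∈ B <;> by_cases hb : t e ∈ B
    · rw [bt_pos ha, bt_pos hb]; decide
    · rw [bt_pos (Or.inl ⟨ha, hb⟩)] at h2; omega
    · rw [bt_pos (Or.inr ⟨ha, hb⟩)] at h2; omega
    · rw [bt_neg ha, bt_neg hb]; decide
  · change Even (∑ d : (Σ x : N, Fin (g x)), bt (d.1 ∈ B))
    rw [Fintype.sum_sigma]
    apply Finset.even_sum
    intro x _
    change Even (∑ _y : Fin (g x), bt (x ∈ B))
    rw [Finset.sum_const, card_univ, Fintype.card_fin, smul_eq_mul]
    exact (hge x).mul_right _

end

/-- the components of the graph minus `u`, as values of a function -/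
theorem comp_abs {V : Type} [Fintype V] (Γ : SimpleGraph V) (u : Set V) :
    ∃ (CC : Type) (_ : Fintype CC) (m : V → Option CC), (∀ q, m q = none ↔ q ∈ u) ∧
      (∀ q q', m q ≠ none → m q' ≠ none → Γ.Adj q q' → m q = m q') ∧
      (∀ q q', m q ≠ none → m q = m q' → q ≠ q' → ∃ q'', m q'' ≠ none ∧ Γ.Adj q q'') ∧
      ∃ O : Finset CC, O.card = ((⊤ : Γ.Subgraph).deleteVerts u).coe.oddComponents.ncard ∧
        ∀ c ∈ O, Odd (∑ q, bt (m q = some c)) := by
  classical
  obtain ⟨S, hS⟩ : ∃ S, S = (⊤ : Γ.Subgraph).deleteVerts u := ⟨_, rfl⟩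
  rw [← hS]
  have hv : ∀ q, q ∈ S.verts ↔ q ∉ u := by
    intro q
    rw [hS]
    simp
  have hadj : ∀ q q', S.Adj q q' ↔ q ∉ u ∧ q' ∉ u ∧ Γ.Adj q q' := by
    intro q q'
    rw [hS]
    simp
  let m : V → Option S.coe.ConnectedComponent := fun q =>
    if h : q ∈ S.verts then some (S.coe.connectedComponentMk ⟨q, h⟩) else none
  have hm1 : ∀ q (h : q ∈ S.verts), m q = some (S.coe.connectedComponentMk ⟨q, h⟩) :=
    fun q h => dif_pos h
  have hm2 : ∀ q, q ∉ S.verts → m q = none := fun q h => dif_neg h
  have hm3 : ∀ q, m q ≠ none → q ∈ S.verts := by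
    intro q h
    by_contra h'
    exact h (hm2 q h')
  refine ⟨S.coe.ConnectedComponent, Fintype.ofFinite _, m, ?_, ?_, ?_, ?_⟩
  · intro q
    constructor
    · intro h
      by_contra h'
      rw [hm1 q ((hv q).mpr h')] at h
      exact absurd h (by simp)
    · intro h
      exact hm2 q fun h' => (hv q).mp h' h
  · intro q q' h h' ha
    rw [hm1 q (hm3 q h), hm1 q' (hm3 q' h')]
    congr 1
    apply SimpleGraph.ConnectedComponent.sound
    apply SimpleGraph.Adj.reachable
    rw [SimpleGraph.Subgraph.coe_adj]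
    exact (hadj q q').mpr ⟨(hv q).mp (hm3 q h), (hv q').mp (hm3 q' h'), ha⟩
  · intro q q' h he hne
    have h' : m q' ≠ none := by rw [← he]; exact h
    rw [hm1 q (hm3 q h), hm1 q' (hm3 q' h')] at he
    have hr : S.coe.Reachable ⟨q, hm3 q h⟩ ⟨q', hm3 q' h'⟩ :=
      SimpleGraph.ConnectedComponent.exact (Option.some.inj he)
    obtain ⟨c, hc⟩ := first_step hr (fun h0 => hne (congrArg Subtype.val h0))
    rw [SimpleGraph.Subgraph.coe_adj] at hc
    refine ⟨c.1, ?_, ((hadj _ _).mp hc).2.2⟩
    rw [hm1 c.1 c.2]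
    simp
  · refine ⟨(Set.toFinite S.coe.oddComponents).toFinset, ?_, ?_⟩
    · rw [Set.ncard_eq_toFinset_card _ (Set.toFinite _)]
    · intro c hc
      rw [Set.Finite.mem_toFinset] at hc
      have hc' : Odd c.supp.ncard := hc
      have h1 : c.supp.ncard = ∑ q, bt (m q = some c) := by
        rw [← Set.ncard_image_of_injective c.supp Subtype.val_injective, ← cnt_sum]
        unfold cnt
        rw [Set.ncard_eq_toFinset_card']
        congr 1
        ext q
        rw [Set.mem_toFinset]
        simp only [mem_filter, mem_univ, true_and]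
        constructor
        · rintro ⟨a, ha, rfl⟩
          rw [hm1 a.1 a.2]
          congr 1
        · intro h
          have h2 : q ∈ S.verts := hm3 q (by rw [h]; simp)
          refine ⟨⟨q, h2⟩, ?_, rfl⟩
          rw [hm1 q h2] at h
          exact Option.some.inj h
      rw [← h1]
      exact hc'

theorem tut : TutStmt := by
  classical
  intro N E _ _ s t g hst hcut hge hg
  rw [SimpleGraph.tutte]
  intro u hviol
  unfold SimpleGraph.IsTutteViolator at hviol
  obtain ⟨CC, _, m, hm, hadj, hstep, O, hO, hodd⟩ := comp_abs (gdg s t g) u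
  rw [← hO] at hviol
  -- the value of a node
  let κ : N → Option CC := fun x =>
    if h : ∃ q : Prt s t g, isP s t g q ∧ nd s t g q = x ∧ m q ≠ none then m h.choose else none
  have hA : ∀ q : Prt s t g, isP s t g q → m q ≠ none → κ (nd s t g q) = m q := by
    intro q hq hq0
    have h : ∃ q' : Prt s t g, isP s t g q' ∧ nd s t g q' = nd s t g q ∧ m q' ≠ none :=
      ⟨q, hq, rfl, hq0⟩
    have h1 : κ (nd s t g q) = m h.choose := dif_pos h
    rw [h1]
    obtain ⟨h2, h3, h4⟩ := h.choose_spec
    by_cases he : h.choose = q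
    · rw [he]
    · refine hadj _ _ h4 hq0 ?_
      generalize h.choose = q' at h2 h3 h4 he
      rcases q' with a | a
      · rcases q with b | b
        · have h5 : a.1.1 = b.1.1 := h3
          refine Or.inl ⟨h5, fun h6 => he ?_⟩
          congr 1
          exact Subtype.ext (Prod.ext h5 h6)
        · exact absurd hq id
      · exact absurd h2 id
  have hK : ∀ x, κ x ≠ none → ∃ q : Prt s t g, isP s t g q ∧ nd s t g q = x ∧ m q ≠ none := by
    intro x hx
    by_contra h
    exact hx (dif_neg h)
  have hB : ∀ d : (Σ x, Fin (g x)), m (pD s t g d) ≠ none → κ d.1 ≠ none →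
      m (pD s t g d) = κ d.1 := by
    intro d hd hd1
    obtain ⟨q, h1, h2, h3⟩ := hK d.1 hd1
    rw [← h2, hA q h1 h3]
    refine hadj _ _ hd h3 ?_
    rcases q with a | a
    · exact h2
    · exact absurd h1 id
  have hC : ∀ (d : (Σ x, Fin (g x))) (q : Prt s t g), m (pD s t g d) ≠ none → κ d.1 = none →
      m (pD s t g d) = m q → q = pD s t g d := by
    intro d q hd hd1 he
    by_contra hne
    obtain ⟨q', h1, h2⟩ := hstep _ _ hd he (fun h => hne h.symm)
    rcases q' with a | a
    · have h3 : a.1.1 = d.1 := h2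
      have h4 := hA (Sum.inl a) trivial h1
      have h5 : nd s t g (Sum.inl a) = d.1 := h3
      rw [h5, hd1] at h4
      exact h1 h4.symm
    · exact absurd h2 id
  let P1 : CC → Prop := fun c => ∃ d : (Σ x, Fin (g x)), κ d.1 = none ∧ m (pD s t g d) = some c
  have hO12 : (O.filter P1).card + (O.filter fun c => ¬ P1 c).card = O.card :=
    Finset.card_filter_add_card_filter_not P1
  have hn1 : (O.filter P1).card ≤ ∑ x, bt (κ x = none) * g x := by
    have h1 : (O.filter P1).card ≤
        (univ.filter fun d : (Σ x, Fin (g x)) => κ d.1 = none).card := by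
      calc (O.filter P1).card = ((O.filter P1).image (some : CC → Option CC)).card :=
            (Finset.card_image_of_injective _ (Option.some_injective _)).symm
        _ ≤ ((univ.filter fun d : (Σ x, Fin (g x)) => κ d.1 = none).image
              fun d => m (pD s t g d)).card := by
            apply Finset.card_le_card
            intro y hy
            rw [mem_image] at hy
            obtain ⟨c, hc, rfl⟩ := hy
            obtain ⟨d, hd1, hd2⟩ := (mem_filter.mp hc).2
            rw [mem_image]
            exact ⟨d, mem_filter.mpr ⟨mem_univ _, hd1⟩, hd2⟩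
        _ ≤ _ := Finset.card_image_le
    refine h1.trans (le_of_eq ?_)
    have h3 : (univ.filter fun d : (Σ x, Fin (g x)) => κ d.1 = none).card =
        ∑ d : (Σ x, Fin (g x)), bt (κ d.1 = none) := by
      rw [← cnt_sum]
      unfold cnt
      congr 1
      ext d
      simp only [mem_filter, mem_univ, true_and]
    rw [h3, Fintype.sum_sigma]
    refine Finset.sum_congr rfl fun x _ => ?_
    change ∑ _y : Fin (g x), bt (κ x = none) = _
    rw [Finset.sum_const, card_univ, Fintype.card_fin, smul_eq_mul, mul_comm]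
  have hq2 : ∀ c, ¬ P1 c → ∀ q, m q = some c ↔ m q ≠ none ∧ κ (nd s t g q) = some c := by
    intro c hc q
    rcases q with a | d
    · constructor
      · intro h
        have h0 : m (Sum.inl a) ≠ none := by rw [h]; simp
        exact ⟨h0, (hA (Sum.inl a) trivial h0).trans h⟩
      · rintro ⟨h0, h⟩
        rw [← hA (Sum.inl a) trivial h0]
        exact h
    · constructor
      · intro h
        have h0 : m (Sum.inr d) ≠ none := by rw [h]; simp
        have h1 : κ d.1 ≠ none := fun h' => hc ⟨d, h', h⟩
        exact ⟨h0, (hB d h0 h1).symm.trans h⟩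
      · rintro ⟨h0, h⟩
        have h1 : κ d.1 ≠ none := by
          change κ d.1 = some c at h
          rw [h]
          simp
        exact (hB d h0 h1).trans h
  have hcount := count s t g κ (O.filter fun c => ¬ P1 c) (fun e => m (pS s t g e) = none)
    (fun e => m (pT s t g e) = none) (fun d => m (pD s t g d) = none) hcut hg
    (by
      intro e h
      by_contra h'
      exact h' ((hA (pS s t g e) trivial h').symm.trans h))
    (by
      intro e h
      by_contra h'
      exact h' ((hA (pT s t g e) trivial h').symm.trans h))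
    (by
      intro e c c' h h' hcc
      by_contra hno
      rw [not_or] at hno
      have h1 : (gdg s t g).Adj (pS s t g e) (pT s t g e) := Or.inr ⟨hst e, rfl⟩
      have h2 := hadj _ _ hno.1 hno.2 h1
      rw [← hA (pS s t g e) trivial hno.1, ← hA (pT s t g e) trivial hno.2] at h2
      change κ (s e) = κ (t e) at h2
      rw [h, h'] at h2
      exact hcc (Option.some.inj h2))
    (by
      intro c hc hz
      rw [mem_filter] at hc
      have h1 := even_of (s := s) (t := t) (g := g) hst hge (Bc κ c) hz
      have h2 := hodd c hc.1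
      have h3 : ∃ q, κ (nd s t g q) = some c ∧ m q = none := by
        by_contra hno
        push Not at hno
        have h4 : ∑ q, bt (m q = some c) = ∑ q : Prt s t g, bt (nd s t g q ∈ Bc κ c) := by
          refine Finset.sum_congr rfl fun q _ => ?_
          congr 1
          rw [mem_Bc]
          exact propext ⟨fun h => ((hq2 c hc.2 q).mp h).2, fun h => (hq2 c hc.2 q).mpr ⟨hno q h, h⟩⟩
        rw [h4] at h2
        exact (Nat.not_even_iff_odd.mpr h2) h1
      obtain ⟨q, h4, h5⟩ := h3
      rcases prt_cases q with ⟨e, rfl⟩ | ⟨e, rfl⟩ | ⟨d, rfl⟩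
      · exact Or.inl ⟨e, h5, h4⟩
      · exact Or.inr (Or.inl ⟨e, h5, h4⟩)
      · exact Or.inr (Or.inr ⟨d, h5, h4⟩))
    _ hn1
  have hu : u.ncard = ∑ q, bt (m q = none) := by
    rw [← cnt_sum]
    unfold cnt
    rw [Set.ncard_eq_toFinset_card']
    congr 1
    ext q
    rw [Set.mem_toFinset]
    simp only [mem_filter, mem_univ, true_and]
    exact (hm q).symm
  rw [sum_prt hst] at hu
  omega

end Pool.Agent.MDG.H42
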